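import Mathlib

set_option autoImplicit false
set_option linter.all false

/-!
# Estimates
-/

namespace Pool.Agent.H596L

theorem hock (K d : ℕ) :
    (K + 1) * ∑ a ∈ Finset.range d, a.descFactorial K = d.descFactorial (K + 1) := by
  induction d with
  | zero => simp
  | succ d ih =>
    rw [Finset.sum_range_succ, mul_add, ih, Nat.succ_descFactorial_succ, Nat.descFactorial_succ]
    rcases Nat.lt_or_ge d K with h | h
    · rw [Nat.descFactorial_of_lt h]
      simp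
    · rw [← add_mul]
      congr 1
      omega

theorem bern (m x : ℕ) : (m + 1) * x ^ m + x ^ (m + 1) ≤ (x + 1) ^ (m + 1) := by
  induction m with
  | zero => simp; omega
  | succ m ih =>
    have h1 : (x + 1) * ((m + 1) * x ^ m + x ^ (m + 1)) ≤ (x + 1) * (x + 1) ^ (m + 1) :=
      Nat.mul_le_mul_left _ ih
    have h2 : (x + 1) * ((m + 1) * x ^ m + x ^ (m + 1)) =
        ((m + 1 + 1) * x ^ (m + 1) + x ^ (m + 1 + 1)) + (m + 1) * x ^ m := by ring
    have h3 : (x + 1) * (x + 1) ^ (m + 1) = (x + 1) ^ (m + 1 + 1) := by ring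
    omega

theorem geo (m e : ℕ) : ∑ i ∈ Finset.range (m + 1), e ^ i ≤ (e + 1) ^ m := by
  rw [add_pow]
  apply Finset.sum_le_sum
  intro i hi
  rw [one_pow, mul_one]
  have : 1 ≤ m.choose i := Nat.choose_pos (by
    rw [Finset.mem_range] at hi; omega)
  exact Nat.le_mul_of_pos_right _ this

theorem Dle (m d : ℕ) :
    (m + 1) * ∑ e ∈ Finset.range d, ∑ i ∈ Finset.range (m + 1), e ^ i ≤ (d + 1) ^ (m + 1) := by
  induction d with
  | zero => simp
  | succ d ih =>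
    rw [Finset.sum_range_succ, mul_add]
    have h1 := bern m (d + 1)
    have h2 : (m + 1) * ∑ i ∈ Finset.range (m + 1), d ^ i ≤ (m + 1) * (d + 1) ^ m :=
      Nat.mul_le_mul_left _ (geo m d)
    omega

theorem Dge (m d : ℕ) : d ≤ ∑ e ∈ Finset.range d, ∑ i ∈ Finset.range (m + 1), e ^ i := by
  induction d with
  | zero => simp
  | succ d ih =>
    rw [Finset.sum_range_succ]
    have : 1 ≤ ∑ i ∈ Finset.range (m + 1), d ^ i := by
      rw [Finset.sum_range_succ']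
      simp
    omega

theorem Dmono (m : ℕ) {d d' : ℕ} (h : d ≤ d') :
    ∑ e ∈ Finset.range d, ∑ i ∈ Finset.range (m + 1), e ^ i ≤
      ∑ e ∈ Finset.range d', ∑ i ∈ Finset.range (m + 1), e ^ i :=
  Finset.sum_le_sum_of_subset (Finset.range_mono h)

/-- choice of the parameters -/
theorem choice (δ : ℝ) (hδ : 0 < δ) (hδ1 : δ < 1 / 4) : ∃ (k n0 : ℕ), 2 ≤ k ∧ ∀ n ≥ n0,
    ∃ d : ℕ, 0 < d ∧
      n / 2 + ∑ e ∈ Finset.range d, ∑ i ∈ Finset.range (k - 1), e ^ i ≤ n ∧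
      n / 2 ≤ ∑ a ∈ Finset.range d, a.descFactorial (k - 1) ∧
      (1 / 4 - δ) * (n : ℝ) ^ 2 * d ≤
        ((n / 2 * (∑ a ∈ Finset.range d, a.descFactorial (k - 1) - n / 2) : ℕ) : ℝ) := by
  obtain ⟨m, hm⟩ := exists_nat_gt (1 / δ)
  obtain ⟨d0, hd0⟩ := exists_nat_gt (((m : ℝ) + 2) * ((m : ℝ) + 3) / δ)
  -- k = m + 2, K = m + 1
  refine ⟨m + 2, max (2 * ∑ e ∈ Finset.range (d0 + 4), ∑ i ∈ Finset.range (m + 1), e ^ i) (m + 1),
    by omega, fun n hn => ?_⟩
  have hn1 : 2 * ∑ e ∈ Finset.range (d0 + 4), ∑ i ∈ Finset.range (m + 1), e ^ i ≤ n :=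
    (le_max_left _ _).trans hn
  have hn2 : m + 1 ≤ n := (le_max_right _ _).trans hn
  have e1 : m + 2 - 1 = m + 1 := by omega
  simp only [e1]
  set D : ℕ → ℕ := fun d => ∑ e ∈ Finset.range d, ∑ i ∈ Finset.range (m + 1), e ^ i with hD
  have hex : ∃ d, n - n / 2 < D d := ⟨n + 1, by
    have := Dge m (n + 1)
    show n - n / 2 < ∑ e ∈ Finset.range (n + 1), ∑ i ∈ Finset.range (m + 1), e ^ i
    omega⟩
  classical
  obtain ⟨d, hd⟩ : ∃ d, Nat.find hex = d + 1 := by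
    rcases Nat.eq_zero_or_pos (Nat.find hex) with h | h
    · have := Nat.find_spec hex
      rw [h] at this
      simp [hD] at this
    · exact ⟨Nat.find hex - 1, by omega⟩
  have h1 : n - n / 2 < D (d + 1) := by
    have := Nat.find_spec hex
    rw [hd] at this
    exact this
  have h2 : D d ≤ n - n / 2 := by
    have := Nat.find_min hex (m := d) (by omega)
    omega
  have h3 : d0 + 4 ≤ d := by
    by_contra hlt
    have : D (d + 1) ≤ D (d0 + 4) := Dmono m (by omega)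
    have : 2 * D (d0 + 4) ≤ n := hn1
    omega
  have h4 : (m + 1) * D (d + 1) ≤ (d + 2) ^ (m + 1) := Dle m (d + 1)
  set r : ℕ := ∑ a ∈ Finset.range d, a.descFactorial (m + 1) with hr
  have h5 : (d - (m + 1)) ^ (m + 2) ≤ (m + 2) * r := by
    have := hock (m + 1) d
    rw [hr, this]
    have h6 := Nat.pow_sub_le_descFactorial d (m + 1 + 1)
    have e : d + 1 - (m + 1 + 1) = d - (m + 1) := by omega
    rw [e] at h6
    exact h6
  -- real versions
  have hmR : (0 : ℝ) ≤ m := Nat.cast_nonneg m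
  have hdR : (d0 : ℝ) + 4 ≤ d := by exact_mod_cast h3
  have hd4 : (4 : ℝ) ≤ d := by
    have : (0 : ℝ) ≤ d0 := Nat.cast_nonneg d0
    linarith
  have hm1 : 1 < δ * m := by
    rw [div_lt_iff₀ hδ] at hm
    linarith
  have hd1 : ((m : ℝ) + 2) * ((m : ℝ) + 3) < δ * d := by
    rw [div_lt_iff₀ hδ] at hd0
    nlinarith
  have hmd : m + 3 ≤ d := by
    have : ((m + 3 : ℕ) : ℝ) < d := by
      push_cast
      nlinarith
    exact_mod_cast this.le
  have x0 : (0 : ℝ) < (d : ℝ) + 2 := by linarith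
  -- lower bound for r
  have h7 : ((d : ℝ) + 2) ^ (m + 2) * (1 - δ) ≤ ((m : ℝ) + 2) * r := by
    have h8 : (((d - (m + 1) : ℕ) : ℝ)) ^ (m + 2) ≤ ((m : ℝ) + 2) * r := by exact_mod_cast h5
    have h9 : ((d - (m + 1) : ℕ) : ℝ) = ((d : ℝ) + 2) * (1 + -(((m : ℝ) + 3) / ((d : ℝ) + 2))) := by
      rw [Nat.cast_sub (by omega)]
      push_cast
      field_simp
      ring
    rw [h9, mul_pow] at h8
    refine le_trans ?_ h8
    apply mul_le_mul_of_nonneg_left _ (by positivity)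
    have h10 : ((m : ℝ) + 3) / ((d : ℝ) + 2) ≤ 1 := by
      rw [div_le_one x0]
      have : ((m + 3 : ℕ) : ℝ) ≤ d := by exact_mod_cast hmd
      push_cast at this
      linarith
    have h11 := one_add_mul_le_pow (a := -(((m : ℝ) + 3) / ((d : ℝ) + 2))) (by linarith) (m + 2)
    refine le_trans ?_ h11
    push_cast
    have h12 : ((m : ℝ) + 2) * (((m : ℝ) + 3) / ((d : ℝ) + 2)) ≤ δ := by
      rw [← mul_div_assoc, div_le_iff₀ x0]
      nlinarith
    linarith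
  have h13 : ((m : ℝ) + 1) * (n / 2) ≤ ((d : ℝ) + 2) ^ (m + 1) := by
    have h14 : ((m : ℝ) + 1) * (D (d + 1) : ℝ) ≤ ((d : ℝ) + 2) ^ (m + 1) := by exact_mod_cast h4
    have h15 : (n : ℝ) / 2 ≤ D (d + 1) := by
      have : n ≤ 2 * D (d + 1) := by omega
      have : (n : ℝ) ≤ 2 * D (d + 1) := by exact_mod_cast this
      linarith
    have : ((m : ℝ) + 1) * (n / 2) ≤ ((m : ℝ) + 1) * (D (d + 1) : ℝ) :=
      mul_le_mul_of_nonneg_left h15 (by linarith)
    linarith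
  have hn0 : (0 : ℝ) ≤ n := Nat.cast_nonneg n
  have h16 : ((d : ℝ)) * (((m : ℝ) + 1) * (n / 2)) * (1 - δ) ≤ ((m : ℝ) + 2) * r := by
    refine le_trans ?_ h7
    apply mul_le_mul_of_nonneg_right _ (by linarith)
    rw [pow_succ']
    have : (0 : ℝ) ≤ ((m : ℝ) + 1) * (n / 2) := by positivity
    nlinarith
  have h17 : (d : ℝ) * (n / 2) * (1 - δ) * (1 - δ) ≤ r := by
    have h18 : ((m : ℝ) + 2) * (1 - δ) ≤ (m : ℝ) + 1 := by nlinarith
    have h19 : (0 : ℝ) ≤ (d : ℝ) * (n / 2) * (1 - δ) := by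
      have : (0 : ℝ) ≤ 1 - δ := by linarith
      positivity
    have h20 : ((m : ℝ) + 2) * ((d : ℝ) * (n / 2) * (1 - δ) * (1 - δ)) ≤ ((m : ℝ) + 2) * r := by
      calc ((m : ℝ) + 2) * ((d : ℝ) * (n / 2) * (1 - δ) * (1 - δ))
          = ((d : ℝ) * (n / 2) * (1 - δ)) * (((m : ℝ) + 2) * (1 - δ)) := by ring
        _ ≤ ((d : ℝ) * (n / 2) * (1 - δ)) * ((m : ℝ) + 1) :=
            mul_le_mul_of_nonneg_left h18 h19
        _ = (d : ℝ) * (((m : ℝ) + 1) * (n / 2)) * (1 - δ) := by ring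
        _ ≤ _ := h16
    exact le_of_mul_le_mul_left h20 (by linarith)
  have hdel : (1 - 2 * δ) ≤ (1 - δ) * (1 - δ) := by nlinarith
  have h21 : (d : ℝ) * (n / 2) * (1 - 2 * δ) ≤ r := by
    have h0 : (0 : ℝ) ≤ (d : ℝ) * (n / 2) := by positivity
    have := mul_le_mul_of_nonneg_left hdel h0
    linarith
  have ht1 : ((n / 2 : ℕ) : ℝ) ≤ n / 2 := by
    have : 2 * (n / 2) ≤ n := by omega
    have : (2 : ℝ) * ((n / 2 : ℕ) : ℝ) ≤ n := by exact_mod_cast this
    linarith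
  have ht2 : ((n : ℝ) - 1) / 2 ≤ ((n / 2 : ℕ) : ℝ) := by
    have : n ≤ 2 * (n / 2) + 1 := by omega
    have : (n : ℝ) ≤ 2 * ((n / 2 : ℕ) : ℝ) + 1 := by exact_mod_cast this
    linarith
  have htr : n / 2 ≤ r := by
    have h22 : ((n / 2 : ℕ) : ℝ) ≤ r := by
      refine le_trans ht1 (le_trans ?_ h21)
      have : (1 : ℝ) ≤ (d : ℝ) * (1 - 2 * δ) := by nlinarith
      have h0 : (0 : ℝ) ≤ (n : ℝ) / 2 := by positivity
      nlinarith
    exact_mod_cast h22
  refine ⟨d, by omega, ?_, htr, ?_⟩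
  · show n / 2 + D d ≤ n
    omega
  · rw [Nat.cast_mul, Nat.cast_sub htr]
    -- r - t ≥ d * (n/2) * (1 - 3 δ)
    have hdd : 1 ≤ δ * d := by nlinarith
    have h23 : (d : ℝ) * (n / 2) * (1 - 3 * δ) ≤ (r : ℝ) - ((n / 2 : ℕ) : ℝ) := by
      have : (n : ℝ) / 2 ≤ (n / 2) * (δ * d) := by
        have h0 : (0 : ℝ) ≤ (n : ℝ) / 2 := by positivity
        nlinarith
      nlinarith
    have hnn : 1 ≤ δ * n := by
      have : (m : ℝ) + 1 ≤ n := by exact_mod_cast hn2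
      nlinarith
    have h24 : (n : ℝ) / 2 * (1 - δ) ≤ ((n / 2 : ℕ) : ℝ) := by
      refine le_trans ?_ ht2
      nlinarith
    have h25 : (0 : ℝ) ≤ (n : ℝ) / 2 * (1 - δ) := by
      have : (0 : ℝ) ≤ 1 - δ := by linarith
      positivity
    have h26 : (0 : ℝ) ≤ (d : ℝ) * (n / 2) * (1 - 3 * δ) := by
      have : (0 : ℝ) ≤ 1 - 3 * δ := by linarith
      positivity
    have h27 := mul_le_mul h24 h23 h26 (le_trans h25 h24)
    refine le_trans ?_ h27
    have h28 : (n : ℝ) / 2 * (1 - δ) * ((d : ℝ) * (n / 2) * (1 - 3 * δ)) =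
        (d : ℝ) * (n : ℝ) ^ 2 * (((1 - δ) * (1 - 3 * δ)) / 4) := by ring
    rw [h28]
    have h29 : (1 / 4 - δ) ≤ ((1 - δ) * (1 - 3 * δ)) / 4 := by nlinarith
    have h30 : (0 : ℝ) ≤ (d : ℝ) * (n : ℝ) ^ 2 := by positivity
    have := mul_le_mul_of_nonneg_left h29 h30
    linarith

end Pool.Agent.H596L
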