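import Mathlib

set_option autoImplicit false
set_option linter.all false

/-!
# Operators on words with distinct letters
-/

namespace Pool.Agent.H596L

/-- words of length less than `k` -/
abbrev Wd (k : ℕ) : Type := {w : List ℕ // w.length < k}

/-- the module -/
abbrev VV (p k t : ℕ) : Type := (Wd k → ZMod p) × (Fin t → ZMod p)

abbrev RR (p k t : ℕ) : Type := Module.End (ZMod p) (VV p k t)

variable {p k t : ℕ}

/-- value of a vector at the word `w` -/
def ev (φ : List ℕ → Fin t → ZMod p) (x : VV p k t) (w : List ℕ) : ZMod p :=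
  if h : w.length < k then x.1 ⟨w, h⟩ else ∑ i, x.2 i * φ w i

theorem ev_add (φ : List ℕ → Fin t → ZMod p) (x y : VV p k t) (w : List ℕ) :
    ev φ (x + y) w = ev φ x w + ev φ y w := by
  unfold ev
  split
  · rfl
  · rw [← Finset.sum_add_distrib]
    exact Finset.sum_congr rfl (fun i _ => by show (x.2 i + y.2 i) * _ = _; ring)

theorem ev_smul (φ : List ℕ → Fin t → ZMod p) (c : ZMod p) (x : VV p k t) (w : List ℕ) :
    ev φ (c • x) w = c * ev φ x w := by
  unfold ev
  split
  · rfl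
  · rw [Finset.mul_sum]
    exact Finset.sum_congr rfl (fun i _ => by show (c * x.2 i) * _ = _; ring)

/-- the operator of the letter `j` -/
def X (φ : List ℕ → Fin t → ZMod p) (j : ℕ) : RR p k t where
  toFun x := (fun w => if j ∈ w.1 then 0 else ev φ x (j :: w.1), 0)
  map_add' x y := by
    refine Prod.ext ?_ (by simp)
    funext w
    show (if j ∈ w.1 then 0 else ev φ (x + y) (j :: w.1)) =
      (if j ∈ w.1 then 0 else ev φ x (j :: w.1)) + (if j ∈ w.1 then 0 else ev φ y (j :: w.1))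
    split
    · simp
    · exact ev_add _ _ _ _
  map_smul' c x := by
    refine Prod.ext ?_ (by simp)
    funext w
    show (if j ∈ w.1 then 0 else ev φ (c • x) (j :: w.1)) =
      c * (if j ∈ w.1 then 0 else ev φ x (j :: w.1))
    split
    · simp
    · exact ev_smul _ _ _ _

theorem X_apply1 (φ : List ℕ → Fin t → ZMod p) (j : ℕ) (x : VV p k t) (w : Wd k) :
    (X φ j x).1 w = if j ∈ w.1 then 0 else ev φ x (j :: w.1) := rfl

theorem X_apply2 (φ : List ℕ → Fin t → ZMod p) (j : ℕ) (x : VV p k t) :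
    (X φ j x).2 = 0 := rfl

/-- the filtration -/
def FF (p k t : ℕ) (i : ℕ) : Submodule (ZMod p) (VV p k t) where
  carrier := {x | (1 ≤ i → x.2 = 0) ∧ ∀ w : Wd k, k < w.1.length + i → x.1 w = 0}
  zero_mem' := ⟨fun _ => rfl, fun _ _ => rfl⟩
  add_mem' := by
    rintro x y ⟨hx, hx'⟩ ⟨hy, hy'⟩
    refine ⟨fun h => ?_, fun w h => ?_⟩
    · show x.2 + y.2 = 0
      rw [hx h, hy h, add_zero]
    · show x.1 w + y.1 w = 0
      rw [hx' w h, hy' w h, add_zero]
  smul_mem' := by
    rintro c x ⟨hx, hx'⟩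
    refine ⟨fun h => ?_, fun w h => ?_⟩
    · show c • x.2 = 0
      rw [hx h, smul_zero]
    · show c • x.1 w = 0
      rw [hx' w h, smul_zero]

theorem mem_FF {i : ℕ} {x : VV p k t} :
    x ∈ FF p k t i ↔ (1 ≤ i → x.2 = 0) ∧ ∀ w : Wd k, k < w.1.length + i → x.1 w = 0 := Iff.rfl

theorem FF_zero (x : VV p k t) : x ∈ FF p k t 0 := by
  rw [mem_FF]
  refine ⟨fun h => by omega, fun w h => ?_⟩
  have := w.2
  omega

theorem FF_top {x : VV p k t} {i : ℕ} (hi : k + 1 ≤ i) (h : x ∈ FF p k t i) : x = 0 := by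
  rw [mem_FF] at h
  refine Prod.ext ?_ (h.1 (by omega))
  funext w
  exact h.2 w (by omega)

theorem FF_anti {i j : ℕ} (h : i ≤ j) : FF p k t j ≤ FF p k t i := by
  intro x hx
  rw [mem_FF] at hx ⊢
  exact ⟨fun h1 => hx.1 (by omega), fun w hw => hx.2 w (by omega)⟩

/-- operators of degree at least `m` -/
def DD (p k t : ℕ) (m : ℕ) : Submodule (ZMod p) (RR p k t) where
  carrier := {T | ∀ i, ∀ x ∈ FF p k t i, T x ∈ FF p k t (i + m)}
  zero_mem' := fun i x _ => Submodule.zero_mem _
  add_mem' := fun {S T} hS hT i x hx => Submodule.add_mem _ (hS i x hx) (hT i x hx)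
  smul_mem' := fun c T hT i x hx => Submodule.smul_mem _ c (hT i x hx)

theorem mem_DD {m : ℕ} {T : RR p k t} :
    T ∈ DD p k t m ↔ ∀ i, ∀ x ∈ FF p k t i, T x ∈ FF p k t (i + m) := Iff.rfl

theorem DD_mul {m n : ℕ} {S T : RR p k t} (hS : S ∈ DD p k t m) (hT : T ∈ DD p k t n) :
    S * T ∈ DD p k t (m + n) := by
  intro i x hx
  have := hS _ _ (hT i x hx)
  have e : i + n + m = i + (m + n) := by omega
  rw [e] at this
  exact this

theorem DD_anti {i j : ℕ} (h : i ≤ j) : DD p k t j ≤ DD p k t i := by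
  intro T hT n x hx
  exact FF_anti (by omega) (hT n x hx)

theorem DD_top {T : RR p k t} {i : ℕ} (hi : k + 1 ≤ i) (h : T ∈ DD p k t i) : T = 0 := by
  refine LinearMap.ext (fun x => ?_)
  exact FF_top (by omega) (h 0 x (FF_zero x))

theorem X_mem (φ : List ℕ → Fin t → ZMod p) (j : ℕ) : (X φ j : RR p k t) ∈ DD p k t 1 := by
  intro i x hx
  rw [mem_FF] at hx ⊢
  refine ⟨fun _ => rfl, fun w hw => ?_⟩
  rw [X_apply1]
  split
  · rfl
  · unfold ev
    split
    · rename_i h1
      apply hx.2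
      simp only [List.length_cons]
      omega
    · rename_i h1
      have h2 := w.2
      have h3 : 1 ≤ i := by
        simp only [List.length_cons] at h1
        omega
      rw [hx.1 h3]
      simp

/-- vectors supported on words which do not contain `a` -/
def CC (p k t : ℕ) (a : ℕ) : Submodule (ZMod p) (VV p k t) where
  carrier := {x | x.2 = 0 ∧ ∀ w : Wd k, a ∈ w.1 → x.1 w = 0}
  zero_mem' := ⟨rfl, fun _ _ => rfl⟩
  add_mem' := by
    rintro x y ⟨hx, hx'⟩ ⟨hy, hy'⟩
    refine ⟨?_, fun w h => ?_⟩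
    · show x.2 + y.2 = 0
      rw [hx, hy, add_zero]
    · show x.1 w + y.1 w = 0
      rw [hx' w h, hy' w h, add_zero]
  smul_mem' := by
    rintro c x ⟨hx, hx'⟩
    refine ⟨?_, fun w h => ?_⟩
    · show c • x.2 = 0
      rw [hx, smul_zero]
    · show c • x.1 w = 0
      rw [hx' w h, smul_zero]

theorem mem_CC {a : ℕ} {x : VV p k t} :
    x ∈ CC p k t a ↔ x.2 = 0 ∧ ∀ w : Wd k, a ∈ w.1 → x.1 w = 0 := Iff.rfl

/-- operators which preserve all `CC` -/
def PP (p k t : ℕ) : Subalgebra (ZMod p) (RR p k t) where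
  carrier := {T | ∀ a, ∀ x ∈ CC p k t a, T x ∈ CC p k t a}
  mul_mem' := fun {S T} hS hT a x hx => hS a _ (hT a x hx)
  one_mem' := fun a x hx => hx
  add_mem' := fun {S T} hS hT a x hx => Submodule.add_mem _ (hS a x hx) (hT a x hx)
  zero_mem' := fun a x _ => Submodule.zero_mem _
  algebraMap_mem' := fun c a x hx => by
    rw [Module.algebraMap_end_apply]
    exact Submodule.smul_mem _ _ hx

theorem ev_CC {φ : List ℕ → Fin t → ZMod p} {a : ℕ} {x : VV p k t} (hx : x ∈ CC p k t a)
    {w : List ℕ} (hw : a ∈ w) : ev φ x w = 0 := by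
  unfold ev
  split
  · exact hx.2 _ hw
  · rw [hx.1]; simp

theorem X_PP (φ : List ℕ → Fin t → ZMod p) (j : ℕ) : (X φ j : RR p k t) ∈ PP p k t := by
  intro a x hx
  refine ⟨rfl, fun w hw => ?_⟩
  rw [X_apply1]
  split
  · rfl
  · exact ev_CC hx (List.mem_cons_of_mem _ hw)

/-- operators with image in `CC a` which kill `CC a` -/
def MM (p k t : ℕ) (a : ℕ) : Submodule (ZMod p) (RR p k t) where
  carrier := {T | (∀ x, T x ∈ CC p k t a) ∧ ∀ x ∈ CC p k t a, T x = 0}
  zero_mem' := ⟨fun x => Submodule.zero_mem _, fun x _ => rfl⟩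
  add_mem' := fun {S T} hS hT => ⟨fun x => Submodule.add_mem _ (hS.1 x) (hT.1 x), fun x hx => by
    rw [LinearMap.add_apply, hS.2 x hx, hT.2 x hx, add_zero]⟩
  smul_mem' := fun c T hT => ⟨fun x => Submodule.smul_mem _ _ (hT.1 x), fun x hx => by
    rw [LinearMap.smul_apply, hT.2 x hx, smul_zero]⟩

theorem X_MM (φ : List ℕ → Fin t → ZMod p) (j : ℕ) : (X φ j : RR p k t) ∈ MM p k t j := by
  refine ⟨fun x => ⟨rfl, fun w hw => ?_⟩, fun x hx => Prod.ext ?_ rfl⟩
  · rw [X_apply1, if_pos hw]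
  · funext w
    rw [X_apply1]
    split
    · rfl
    · exact ev_CC hx List.mem_cons_self

theorem MM_mul_left {a : ℕ} {S T : RR p k t} (hS : S ∈ PP p k t) (hT : T ∈ MM p k t a) :
    S * T ∈ MM p k t a :=
  ⟨fun x => hS a _ (hT.1 x), fun x hx => by
    rw [Module.End.mul_apply, hT.2 x hx, map_zero]⟩

theorem MM_mul_right {a : ℕ} {S T : RR p k t} (hS : S ∈ PP p k t) (hT : T ∈ MM p k t a) :
    T * S ∈ MM p k t a :=
  ⟨fun x => hT.1 _, fun x hx => hT.2 _ (hS a x hx)⟩

theorem MM_MM {a : ℕ} {S T : RR p k t} (hS : S ∈ MM p k t a) (hT : T ∈ MM p k t a) :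
    S * T = 0 := by
  refine LinearMap.ext (fun x => hS.2 _ (hT.1 x))

/-- `X_j T X_j = 0` -/
theorem XTX (φ : List ℕ → Fin t → ZMod p) (j : ℕ) {T : RR p k t} (hT : T ∈ PP p k t) :
    X φ j * T * X φ j = 0 := by
  rw [mul_assoc]
  exact MM_MM (X_MM φ j) (MM_mul_left hT (X_MM φ j))

theorem XX (φ : List ℕ → Fin t → ZMod p) (j : ℕ) : (X φ j * X φ j : RR p k t) = 0 :=
  MM_MM (X_MM φ j) (X_MM φ j)

/-- iterated commutator -/
def adw (φ : List ℕ → Fin t → ZMod p) : List ℕ → RR p k t → RR p k t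
  | [], T => T
  | y :: w, T => X φ y * adw φ w T - adw φ w T * X φ y

theorem adw_PP (φ : List ℕ → Fin t → ZMod p) (w : List ℕ) (a : ℕ) :
    (adw φ w (X φ a) : RR p k t) ∈ PP p k t := by
  induction w with
  | nil => exact X_PP φ a
  | cons y w ih =>
    exact Subalgebra.sub_mem _ (Subalgebra.mul_mem _ (X_PP φ y) ih)
      (Subalgebra.mul_mem _ ih (X_PP φ y))

theorem adw_MM (φ : List ℕ → Fin t → ZMod p) (w : List ℕ) (a : ℕ) :
    (adw φ w (X φ a) : RR p k t) ∈ MM p k t a := by
  induction w with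
  | nil => exact X_MM φ a
  | cons y w ih =>
    exact Submodule.sub_mem _ (MM_mul_left (X_PP φ y) ih) (MM_mul_right (X_PP φ y) ih)

theorem adw_DD (φ : List ℕ → Fin t → ZMod p) (w : List ℕ) (a : ℕ) :
    (adw φ w (X φ a) : RR p k t) ∈ DD p k t (w.length + 1) := by
  induction w with
  | nil => exact X_mem φ a
  | cons y w ih =>
    refine Submodule.sub_mem _ ?_ ?_
    · have := DD_mul (X_mem φ y) ih
      rw [show 1 + (w.length + 1) = (y :: w).length + 1 by simp; omega] at this
      exact this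
    · have := DD_mul ih (X_mem φ y)
      rw [show (w.length + 1) + 1 = (y :: w).length + 1 by simp] at this
      exact this

/-- the value of an iterated commutator -/
theorem adw_eval (φ : List ℕ → Fin t → ZMod p)
    (hφ : ∀ (y a : ℕ) (v : List ℕ), a ∈ v → y < a → φ (y :: v) = 0) (s : Fin t → ZMod p)
    (a : ℕ) (w : List ℕ) : ∀ (u : List ℕ) (hu : w.length + u.length + 1 = k)
      (hu' : u.length < k), (a :: (w.reverse ++ u)).Nodup → (∀ y ∈ w, y < a) →
      ((adw φ w (X φ a) : RR p k t) ((0 : Wd k → ZMod p), s)).1 ⟨u, hu'⟩ =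
        ∑ i, s i * φ (a :: (w.reverse ++ u)) i := by
  induction w with
  | nil =>
    intro u hu hu' hnd _
    show ((X φ a : RR p k t) ((0 : Wd k → ZMod p), s)).1 ⟨u, hu'⟩ = _
    simp only [List.length_nil, List.reverse_nil, List.nil_append] at hu hnd ⊢
    rw [X_apply1, if_neg (List.nodup_cons.1 hnd).1]
    unfold ev
    rw [dif_neg (by simp only [List.length_cons]; omega)]
  | cons y w ih =>
    intro u hu hu' hnd hlt
    simp only [List.length_cons] at hu
    have e : (y :: w).reverse ++ u = w.reverse ++ (y :: u) := by simp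
    rw [e] at hnd ⊢
    have hy : y < a := hlt y List.mem_cons_self
    show ((X φ y * adw φ w (X φ a) - adw φ w (X φ a) * X φ y : RR p k t)
      ((0 : Wd k → ZMod p), s)).1 ⟨u, hu'⟩ = _
    rw [LinearMap.sub_apply, Module.End.mul_apply, Module.End.mul_apply]
    have h1 : (X φ y : RR p k t) ((0 : Wd k → ZMod p), s) ∈ CC p k t a := by
      refine ⟨rfl, fun v hv => ?_⟩
      rw [X_apply1]
      split
      · rfl
      · unfold ev
        split
        · rfl
        · rw [hφ y a v.1 hv hy]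
          simp
    rw [(adw_MM φ w a).2 _ h1, sub_zero, X_apply1]
    have h2 : y ∉ u := by
      have h3 := (List.nodup_cons.1 hnd).2
      have h4 := (List.nodup_append.1 h3).2.1
      exact (List.nodup_cons.1 h4).1
    have h5 : (y :: u).length < k := by
      simp only [List.length_cons]; omega
    rw [if_neg h2]
    unfold ev
    rw [dif_pos h5]
    exact ih (y :: u) (by simp only [List.length_cons]; omega) h5 hnd
      (fun z hz => hlt z (List.mem_cons_of_mem _ hz))

end Pool.Agent.H596L
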