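import Mathlib
import Pool.Agent.H596L.Op

set_option autoImplicit false
set_option linter.all false

/-!
# The order of the group
-/

namespace Pool.Agent.H596L

theorem g1 {R : Type} [Ring R] (x : R) : (1 + x) * (1 - x) = 1 - x * x := by noncomm_ring
theorem g2 {R : Type} [Ring R] (x : R) : (1 - x) * (1 + x) = 1 - x * x := by noncomm_ring
theorem g3 {R : Type} [Ring R] (x T : R) :
    (1 + x) * T * (1 - x) = T + (x * T - T * x) - x * T * x := by noncomm_ring
theorem g4 {R : Type} [Ring R] (x T : R) :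
    (1 - x) * T * (1 + x) = T - (x * T - T * x) - x * T * x := by noncomm_ring
theorem g5 {R : Type} [Ring R] (u T : R) : u * T = (u - 1) * T + T := by noncomm_ring
theorem g6 {R : Type} [Ring R] (u T : R) : T * u = T * (u - 1) + T := by noncomm_ring
theorem g7 {R : Type} [Ring R] (a b T c d : R) : a * b * T * (c * d) = a * (b * T * c) * d := by
  noncomm_ring

theorem step {R : Type} [Ring R] (H : Subgroup Rˣ) [Finite H] (M Q : AddSubgroup R) [Finite M]
    (h1 : ∀ m ∈ M, ∀ m' ∈ M, m * m' = 0)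
    (h2 : ∀ h ∈ H, ∀ m ∈ M, ∃ m' ∈ M, ∃ q ∈ Q, (h : R) * m * ((h⁻¹ : Rˣ) : R) = m' + q)
    (h3 : ∀ q ∈ Q, ∀ m ∈ M, q * m = 0) (h4 : ∀ q ∈ Q, ∃ u ∈ H, (u : R) = 1 + q) :
    ∃ S : Subgroup Rˣ, H ≤ S ∧ (∀ u : Rˣ, (u : R) - 1 ∈ M → u ∈ S) ∧ Finite S ∧
      Nat.card S ≤ Nat.card H * Nat.card M := by
  let S : Subgroup Rˣ :=
    { carrier := {u | ∃ h ∈ H, ∃ m ∈ M, (u : R) = h * (1 + m)}
      mul_mem' := by
        rintro u v ⟨h, hh, m, hm, hu⟩ ⟨h', hh', m', hm', hv⟩
        obtain ⟨m1, hm1, q, hq, e⟩ := h2 h'⁻¹ (H.inv_mem hh') m hm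
        obtain ⟨uq, huq, euq⟩ := h4 q hq
        refine ⟨h * h' * uq, H.mul_mem (H.mul_mem hh hh') huq, m1 + m', M.add_mem hm1 hm', ?_⟩
        rw [inv_inv] at e
        have e1 : m * (h' : R) = (h' : R) * (m1 + q) := by
          rw [← e, ← mul_assoc, ← mul_assoc, Units.mul_inv, one_mul]
        have e2 : (1 + m1 + q : R) * (1 + m') = (1 + q) * (1 + (m1 + m')) := by
          have a1 := h1 m1 hm1 m' hm'
          have a2 := h3 q hq m1 hm1
          simp only [mul_add, add_mul, mul_one, one_mul, a1, a2]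
          abel
        rw [Units.val_mul, hu, hv, Units.val_mul, Units.val_mul, euq]
        calc (h : R) * (1 + m) * (h' * (1 + m')) = h * (h' + m * h') * (1 + m') := by noncomm_ring
          _ = h * h' * ((1 + m1 + q) * (1 + m')) := by rw [e1]; noncomm_ring
          _ = h * h' * (1 + q) * (1 + (m1 + m')) := by rw [e2]; noncomm_ring
      one_mem' := ⟨1, H.one_mem, 0, M.zero_mem, by simp⟩
      inv_mem' := by
        rintro u ⟨h, hh, m, hm, hu⟩
        obtain ⟨m1, hm1, q, hq, e⟩ := h2 h hh m hm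
        obtain ⟨uq, huq, euq⟩ := h4 (-q) (Q.neg_mem hq)
        refine ⟨h⁻¹ * uq, H.mul_mem (H.inv_mem hh) huq, -m1, M.neg_mem hm1, ?_⟩
        apply Units.inv_eq_of_mul_eq_one_right
        have e2 : (h : R) * m * ((h⁻¹ : Rˣ) : R) * ((h : R) * m * ((h⁻¹ : Rˣ) : R)) = 0 := by
          have : (h : R) * m * ((h⁻¹ : Rˣ) : R) * ((h : R) * m * ((h⁻¹ : Rˣ) : R)) =
              (h : R) * (m * ((((h⁻¹ : Rˣ) : R) * (h : R)) * m)) * ((h⁻¹ : Rˣ) : R) := by
            noncomm_ring
          rw [this, Units.inv_mul, one_mul, h1 m hm m hm]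
          simp
        rw [e] at e2
        have a2 := h3 q hq m1 hm1
        have e3 : ((h⁻¹ : Rˣ) : R) * (1 + -q) * (1 + -m1) = ((h⁻¹ : Rˣ) : R) * (1 - (m1 + q)) := by
          have : (1 + -q) * (1 + -m1) = 1 - (m1 + q) + q * m1 := by noncomm_ring
          rw [mul_assoc, this, a2, add_zero]
        rw [hu, Units.val_mul, euq, e3]
        have e4 : (h : R) * (1 + m) * (((h⁻¹ : Rˣ) : R) * (1 - (m1 + q))) =
            ((h : R) * ((h⁻¹ : Rˣ) : R) + (h : R) * m * ((h⁻¹ : Rˣ) : R)) * (1 - (m1 + q)) := by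
          noncomm_ring
        rw [e4, Units.mul_inv, e]
        have : (1 + (m1 + q)) * (1 - (m1 + q)) = 1 - (m1 + q) * (m1 + q) := by noncomm_ring
        rw [this, e2, sub_zero] }
  have key : ∀ u : S, ∃ x : H × M, ((u : Rˣ) : R) = (x.1 : Rˣ) * (1 + (x.2 : R)) := by
    rintro ⟨u, h, hh, m, hm, hu⟩
    exact ⟨(⟨h, hh⟩, ⟨m, hm⟩), hu⟩
  choose f hf using key
  have hinj : Function.Injective f := by
    intro u v huv
    apply Subtype.ext
    apply Units.ext
    rw [hf u, hf v, huv]
  refine ⟨S, fun h hh => ⟨h, hh, 0, M.zero_mem, by simp⟩, fun u hu => ?_,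
    Finite.of_injective f hinj, ?_⟩
  · exact ⟨1, H.one_mem, _, hu, by simp⟩
  · rw [← Nat.card_prod]
    exact Nat.card_le_card_of_injective f hinj

variable {p k t : ℕ}

/-- the group -/
def Hd (φ : List ℕ → Fin t → ZMod p) (k a : ℕ) : Subgroup (RR p k t)ˣ :=
  Subgroup.closure ({u | ∃ j < a, (u : RR p k t) = 1 + X φ j} ∪
    {u | (u : RR p k t) - 1 ∈ DD p k t k})

/-- span of the iterated commutators -/
def Ma (φ : List ℕ → Fin t → ZMod p) (k a : ℕ) : Submodule (ZMod p) (RR p k t) :=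
  Submodule.span (ZMod p) (Set.range
    (fun x : (Σ i : Fin (k - 1), (Fin i → Fin a)) =>
      adw φ (List.ofFn (fun j => ((x.2 j : Fin a) : ℕ))) (X φ a)))

theorem mem_Ma (φ : List ℕ → Fin t → ZMod p) (a : ℕ) (w : List ℕ) (hw : w.length < k - 1)
    (hw' : ∀ y ∈ w, y < a) : adw φ w (X φ a) ∈ Ma φ k a := by
  apply Submodule.subset_span
  refine ⟨⟨⟨w.length, hw⟩, fun j => ⟨w.get j, hw' _ (List.get_mem w j)⟩⟩, ?_⟩
  show adw φ (List.ofFn w.get) (X φ a) = _
  rw [List.ofFn_get]

theorem Ma_ind (φ : List ℕ → Fin t → ZMod p) (a : ℕ) {C : Submodule (ZMod p) (RR p k t)}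
    (h : ∀ w : List ℕ, w.length < k - 1 → (∀ y ∈ w, y < a) → adw φ w (X φ a) ∈ C) :
    Ma φ k a ≤ C := by
  apply Submodule.span_le.2
  rintro _ ⟨x, rfl⟩
  apply h
  · rw [List.length_ofFn]
    exact x.1.2
  · intro y hy
    rw [List.mem_ofFn] at hy
    obtain ⟨j, rfl⟩ := hy
    exact (x.2 j).2

theorem Ma_le_DD (φ : List ℕ → Fin t → ZMod p) (a : ℕ) : Ma φ k a ≤ DD p k t 1 :=
  Ma_ind φ a (fun w _ _ => DD_anti (by omega) (adw_DD φ w a))

theorem Ma_le_MM (φ : List ℕ → Fin t → ZMod p) (a : ℕ) : Ma φ k a ≤ MM p k t a :=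
  Ma_ind φ a (fun w _ _ => adw_MM φ w a)

theorem Ma_le_PP (φ : List ℕ → Fin t → ZMod p) (a : ℕ) :
    Ma φ k a ≤ Subalgebra.toSubmodule (PP p k t) :=
  Ma_ind φ a (fun w _ _ => adw_PP φ w a)

theorem card_Ma [NeZero p] (φ : List ℕ → Fin t → ZMod p) (a : ℕ) :
    Finite (Ma φ k a) ∧ Nat.card (Ma φ k a) ≤ p ^ (∑ i ∈ Finset.range (k - 1), a ^ i) := by
  have e : Nat.card (Σ i : Fin (k - 1), (Fin i → Fin a)) = ∑ i ∈ Finset.range (k - 1), a ^ i := by
    rw [Nat.card_sigma]
    simp only [Nat.card_eq_fintype_card, Fintype.card_pi, Fintype.card_fin, Finset.prod_const,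
      Finset.card_univ]
    rw [Fin.sum_univ_eq_sum_range (fun i => a ^ i) (k - 1)]
  let L := Fintype.linearCombination (ZMod p)
    (fun x : (Σ i : Fin (k - 1), (Fin i → Fin a)) =>
      (adw φ (List.ofFn (fun j => ((x.2 j : Fin a) : ℕ))) (X φ a) : RR p k t))
  have hL : LinearMap.range L = Ma φ k a := Fintype.range_linearCombination (ZMod p) _
  rw [← hL]
  have hs : Function.Surjective L.rangeRestrict := L.surjective_rangeRestrict
  refine ⟨Finite.of_surjective _ hs, ?_⟩
  have := Nat.card_le_card_of_surjective _ hs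
  rw [Nat.card_fun, e, Nat.card_zmod] at this
  exact this

/-- coordinates of an operator of top degree -/
def crd (hk : 0 < k) (T : RR p k t) (i : Fin t) : ZMod p :=
  (T ((0 : Wd k → ZMod p), Pi.single i 1)).1 ⟨[], hk⟩

theorem crd_zero (hk : 0 < k) {T : RR p k t} (hT : T ∈ DD p k t k) (h : crd hk T = 0) : T = 0 := by
  have h1 : ∀ f : Wd k → ZMod p, T (f, 0) = 0 := by
    intro f
    apply FF_top (i := 1 + k) (by omega)
    apply hT
    refine ⟨fun _ => rfl, fun w hw => ?_⟩
    have := w.2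
    omega
  have h2 : ∀ i, T ((0 : Wd k → ZMod p), Pi.single i 1) = 0 := by
    intro i
    have h3 := hT 0 _ (FF_zero ((0 : Wd k → ZMod p), (Pi.single i 1 : Fin t → ZMod p)))
    rw [mem_FF] at h3
    refine Prod.ext ?_ (h3.1 (by omega))
    funext w
    rcases w with ⟨w, hw⟩
    cases w with
    | nil => exact congrFun h i
    | cons y w =>
      apply h3.2
      simp only [List.length_cons]
      omega
  refine LinearMap.ext (fun x => ?_)
  have e : x = (x.1, 0) + ∑ i, x.2 i • ((0 : Wd k → ZMod p), (Pi.single i 1 : Fin t → ZMod p)) := by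
    refine Prod.ext ?_ ?_
    · simp [Prod.fst_sum]
    · rw [Prod.snd_add, Prod.snd_sum, zero_add]
      simp only [Prod.smul_snd]
      funext j
      simp [Finset.sum_apply, Pi.single_apply]
  rw [e, map_add, h1, map_sum, zero_add]
  simp only [map_smul, h2, smul_zero, Finset.sum_const_zero]
  rfl

theorem card_DD [NeZero p] (hk : 0 < k) :
    Finite (DD p k t k) ∧ Nat.card (DD p k t k) ≤ p ^ t := by
  have hinj : Function.Injective (fun T : DD p k t k => crd hk T.1) := by
    intro S T h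
    apply Subtype.ext
    rw [← sub_eq_zero]
    apply crd_zero hk (Submodule.sub_mem _ S.2 T.2)
    funext i
    have := congrFun h i
    show ((S.1 - T.1) _).1 _ = 0
    rw [LinearMap.sub_apply, Prod.fst_sub, Pi.sub_apply, sub_eq_zero]
    exact this
  refine ⟨Finite.of_injective _ hinj, ?_⟩
  have := Nat.card_le_card_of_injective _ hinj
  rw [Nat.card_fun, Nat.card_zmod, Nat.card_eq_fintype_card (α := Fin t), Fintype.card_fin] at this
  exact this

/-- the unit `1 + X_j` -/
def uX (φ : List ℕ → Fin t → ZMod p) (k j : ℕ) : (RR p k t)ˣ where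
  val := 1 + X φ j
  inv := 1 - X φ j
  val_inv := by
    rw [g1, XX, sub_zero]
  inv_val := by
    rw [g2, XX, sub_zero]

theorem uX_val (φ : List ℕ → Fin t → ZMod p) (j : ℕ) :
    ((uX φ k j : (RR p k t)ˣ) : RR p k t) = 1 + X φ j := rfl

theorem uX_inv (φ : List ℕ → Fin t → ZMod p) (j : ℕ) :
    (((uX φ k j)⁻¹ : (RR p k t)ˣ) : RR p k t) = 1 - X φ j := rfl

theorem ad_mem (hk : 2 ≤ k) (φ : List ℕ → Fin t → ZMod p) {a j : ℕ} (hj : j < a) {T : RR p k t}
    (hT : T ∈ Ma φ k a ⊔ DD p k t k) :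
    X φ j * T - T * X φ j ∈ Ma φ k a ⊔ DD p k t k ∧ X φ j * T * X φ j = 0 := by
  obtain ⟨m, hm, q, hq, rfl⟩ := Submodule.mem_sup.1 hT
  have e1 : X φ j * q = 0 := DD_top (i := 1 + k) (by omega) (DD_mul (X_mem φ j) hq)
  have e2 : q * X φ j = 0 := DD_top (i := k + 1) (by omega) (DD_mul hq (X_mem φ j))
  have e3 : X φ j * m * X φ j = 0 := XTX φ j (Ma_le_PP φ a hm)
  constructor
  · rw [mul_add, add_mul, e1, e2, add_zero, add_zero]
    let ad : RR p k t →ₗ[ZMod p] RR p k t :=
      LinearMap.mulLeft (ZMod p) (X φ j) - LinearMap.mulRight (ZMod p) (X φ j)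
    have h1 : Ma φ k a ≤ (Ma φ k a ⊔ DD p k t k).comap ad := by
      refine Ma_ind φ a ?_
      intro w hw hw'
      show (adw φ (j :: w) (X φ a) : RR p k t) ∈ Ma φ k a ⊔ DD p k t k
      rcases Nat.lt_or_ge (w.length + 1) (k - 1) with h | h
      · apply Submodule.mem_sup_left
        apply mem_Ma φ a (j :: w) (by simpa using h)
        intro y hy
        rcases List.mem_cons.1 hy with rfl | hy
        · exact hj
        · exact hw' y hy
      · apply Submodule.mem_sup_right
        refine DD_anti ?_ (adw_DD φ (j :: w) a)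
        simp only [List.length_cons]
        omega
    exact h1 hm
  · rw [mul_add, add_mul, e3, e1, zero_mul, add_zero]

theorem conj_mem (hk : 2 ≤ k) (φ : List ℕ → Fin t → ZMod p) {a : ℕ} {h : (RR p k t)ˣ}
    (hh : h ∈ Hd φ k a) :
    (∀ T ∈ Ma φ k a ⊔ DD p k t k, (h : RR p k t) * T * ((h⁻¹ : (RR p k t)ˣ) : RR p k t) ∈
      Ma φ k a ⊔ DD p k t k) ∧
    (∀ T ∈ Ma φ k a ⊔ DD p k t k, ((h⁻¹ : (RR p k t)ˣ) : RR p k t) * T * (h : RR p k t) ∈
      Ma φ k a ⊔ DD p k t k) := by
  unfold Hd at hh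
  induction hh using Subgroup.closure_induction with
  | mem u hu =>
    rcases hu with ⟨j, hj, hu⟩ | hu
    · have e : u = uX φ k j := Units.ext hu
      rw [e, uX_val, uX_inv]
      constructor
      · intro T hT
        obtain ⟨h1, h2⟩ := ad_mem hk φ hj hT
        rw [g3, h2, sub_zero]
        exact Submodule.add_mem _ hT h1
      · intro T hT
        obtain ⟨h1, h2⟩ := ad_mem hk φ hj hT
        rw [g4, h2, sub_zero]
        exact Submodule.sub_mem _ hT h1
    · have hT1 : ∀ T ∈ Ma φ k a ⊔ DD p k t k, T ∈ DD p k t 1 := by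
        intro T hT
        exact (sup_le (Ma_le_DD φ a) (DD_anti (by omega))) hT
      have c1 : ∀ T ∈ Ma φ k a ⊔ DD p k t k, (u : RR p k t) * T = T := by
        intro T hT
        have e1 : ((u : RR p k t) - 1) * T = 0 :=
          DD_top (i := k + 1) (by omega) (DD_mul hu (hT1 T hT))
        rw [g5, e1, zero_add]
      have c2 : ∀ T ∈ Ma φ k a ⊔ DD p k t k, T * (u : RR p k t) = T := by
        intro T hT
        have e1 : T * ((u : RR p k t) - 1) = 0 :=
          DD_top (i := 1 + k) (by omega) (DD_mul (hT1 T hT) hu)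
        rw [g6, e1, zero_add]
      constructor
      · intro T hT
        rw [c1 T hT]
        have : T * ((u⁻¹ : (RR p k t)ˣ) : RR p k t) = T := by
          rw [Units.mul_inv_eq_iff_eq_mul]
          exact (c2 T hT).symm
        rw [this]
        exact hT
      · intro T hT
        rw [mul_assoc, c2 T hT]
        have : ((u⁻¹ : (RR p k t)ˣ) : RR p k t) * T = T := by
          rw [Units.inv_mul_eq_iff_eq_mul]
          exact (c1 T hT).symm
        rw [this]
        exact hT
  | one =>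
    constructor
    · intro T hT; simpa using hT
    · intro T hT; simpa using hT
  | mul u v _ _ hu hv =>
    constructor
    · intro T hT
      have := hu.1 _ (hv.1 T hT)
      rw [mul_inv_rev, Units.val_mul, Units.val_mul]
      rw [g7]
      exact this
    · intro T hT
      have := hv.2 _ (hu.2 T hT)
      rw [mul_inv_rev, Units.val_mul, Units.val_mul]
      rw [g7]
      exact this
  | inv u _ hu =>
    rw [inv_inv]
    exact ⟨hu.2, hu.1⟩

theorem card_Hd [NeZero p] (hk : 2 ≤ k) (φ : List ℕ → Fin t → ZMod p) (a : ℕ) :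
    Finite (Hd φ k a) ∧ Nat.card (Hd φ k a) ≤
      p ^ (t + ∑ e ∈ Finset.range a, ∑ i ∈ Finset.range (k - 1), e ^ i) := by
  induction a with
  | zero =>
    obtain ⟨f1, c1⟩ := card_DD (p := p) (k := k) (t := t) (by omega)
    have : Finite (DD p k t k).toAddSubgroup := f1
    obtain ⟨S, hS1, hS2, hS3, hS4⟩ := step (⊥ : Subgroup (RR p k t)ˣ)
      (DD p k t k).toAddSubgroup ⊥
      (fun m hm m' hm' => DD_top (i := k + k) (by omega) (DD_mul hm hm'))
      (fun h hh m hm => ⟨m, hm, 0, AddSubgroup.zero_mem _, by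
        rw [Subgroup.mem_bot] at hh
        subst hh
        simp⟩)
      (fun q hq m hm => by
        rw [AddSubgroup.mem_bot] at hq
        rw [hq, zero_mul])
      (fun q hq => ⟨1, Subgroup.one_mem _, by
        rw [AddSubgroup.mem_bot] at hq
        rw [hq]; simp⟩)
    have hle : Hd φ k 0 ≤ S := by
      unfold Hd
      rw [Subgroup.closure_le]
      rintro u (⟨j, hj, _⟩ | hu)
      · omega
      · exact hS2 u hu
    refine ⟨Finite.of_injective _ (Subgroup.inclusion_injective hle), ?_⟩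
    have h5 := Nat.card_le_card_of_injective _ (Subgroup.inclusion_injective hle)
    simp only [Finset.range_zero, Finset.sum_empty, add_zero]
    rw [Subgroup.card_bot, one_mul] at hS4
    exact h5.trans (hS4.trans c1)
  | succ a ih =>
    obtain ⟨fi, ci⟩ := ih
    obtain ⟨f1, c1⟩ := card_Ma (k := k) φ a
    have : Finite (Ma φ k a).toAddSubgroup := f1
    obtain ⟨S, hS1, hS2, hS3, hS4⟩ := step (Hd φ k a)
      (Ma φ k a).toAddSubgroup (DD p k t k).toAddSubgroup
      (fun m hm m' hm' => MM_MM (Ma_le_MM φ a hm) (Ma_le_MM φ a hm'))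
      (fun h hh m hm => by
        have := (conj_mem hk φ hh).1 m (Submodule.mem_sup_left hm)
        obtain ⟨m', hm', q, hq, e⟩ := Submodule.mem_sup.1 this
        exact ⟨m', hm', q, hq, e.symm⟩)
      (fun q hq m hm => DD_top (i := k + 1) (by omega) (DD_mul hq (Ma_le_DD φ a hm)))
      (fun q hq => by
        have hqq : q * q = 0 := DD_top (i := k + k) (by omega) (DD_mul hq hq)
        refine ⟨⟨1 + q, 1 - q, ?_, ?_⟩, ?_, rfl⟩
        · rw [g1, hqq, sub_zero]
        · rw [g2, hqq, sub_zero]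
        · apply Subgroup.subset_closure
          right
          show (1 + q) - 1 ∈ DD p k t k
          rw [add_sub_cancel_left]
          exact hq)
    have hle : Hd φ k (a + 1) ≤ S := by
      unfold Hd
      rw [Subgroup.closure_le]
      rintro u (⟨j, hj, hu⟩ | hu)
      · rcases Nat.lt_succ_iff_lt_or_eq.1 hj with h | h
        · exact hS1 (Subgroup.subset_closure (Or.inl ⟨j, h, hu⟩))
        · apply hS2 u
          rw [hu, add_sub_cancel_left, h]
          exact mem_Ma φ a [] (by simp; omega) (by simp)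
      · exact hS1 (Subgroup.subset_closure (Or.inr hu))
    refine ⟨Finite.of_injective _ (Subgroup.inclusion_injective hle), ?_⟩
    have h5 := Nat.card_le_card_of_injective _ (Subgroup.inclusion_injective hle)
    rw [Finset.sum_range_succ, ← add_assoc, pow_add]
    exact h5.trans (hS4.trans (Nat.mul_le_mul ci c1))

end Pool.Agent.H596L
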