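import Mathlib
import Pool.Agent.H596L.Bd
import Pool.Agent.H596R3.CovLow

set_option autoImplicit false
set_option linter.all false

/-!
# The counting inequality
-/

namespace Pool.Agent.H596L

variable {p k t : ℕ}

theorem g8 {R : Type} [Ring R] (x T : R) (h1 : x * x = 0) (h2 : T * T = 0) (h3 : x * T * x = 0)
    (h4 : T * x * T = 0) : (1 + x) * (1 + T) * (1 - x) * (1 - T) = 1 + (x * T - T * x) := by
  have e : (1 + x) * (1 + T) * (1 - x) * (1 - T) = 1 + (x * T - T * x) - T * T - x * (T * T)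
    + T * x * T - x * x * (1 - T) - x * T * x * (1 - T) := by noncomm_ring
  rw [e, h1, h2, h3, h4]
  simp

/-- iterated commutators in a group -/
def cw {Γ : Type} [Group Γ] (g : ℕ → Γ) (a : ℕ) : List ℕ → Γ
  | [] => g a
  | y :: w => g y * cw g a w * (g y)⁻¹ * (cw g a w)⁻¹

theorem cw_map {Γ Δ : Type} [Group Γ] [Group Δ] (f : Γ →* Δ) (g : ℕ → Γ) (a : ℕ) (w : List ℕ) :
    f (cw g a w) = cw (fun j => f (g j)) a w := by
  induction w with
  | nil => rfl
  | cons y w ih => simp only [cw, map_mul, map_inv, ih]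

theorem cw_congr {Γ : Type} [Group Γ] (g g' : ℕ → Γ) (a : ℕ) (w : List ℕ) (ha : g a = g' a)
    (hw : ∀ y ∈ w, g y = g' y) : cw g a w = cw g' a w := by
  induction w with
  | nil => exact ha
  | cons y w ih =>
    simp only [cw]
    rw [ih (fun z hz => hw z (List.mem_cons_of_mem _ hz)), hw y List.mem_cons_self]

theorem cw_val (φ : List ℕ → Fin t → ZMod p) (a : ℕ) (w : List ℕ) :
    ((cw (uX φ k) a w : (RR p k t)ˣ) : RR p k t) = 1 + adw φ w (X φ a) := by
  induction w with
  | nil => rfl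
  | cons y w ih =>
    have hTT : adw φ w (X φ a) * (adw φ w (X φ a) : RR p k t) = 0 :=
      MM_MM (adw_MM φ w a) (adw_MM φ w a)
    have hinv : (((cw (uX φ k) a w)⁻¹ : (RR p k t)ˣ) : RR p k t) = 1 - adw φ w (X φ a) := by
      apply Units.inv_eq_of_mul_eq_one_right
      rw [ih, g1, hTT, sub_zero]
    show ((uX φ k y * cw (uX φ k) a w * (uX φ k y)⁻¹ * (cw (uX φ k) a w)⁻¹ : (RR p k t)ˣ) :
      RR p k t) = 1 + (X φ y * adw φ w (X φ a) - adw φ w (X φ a) * X φ y)
    rw [Units.val_mul, Units.val_mul, Units.val_mul, ih, hinv, uX_inv, uX_val]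
    apply g8
    · exact XX φ y
    · exact hTT
    · exact XTX φ y (adw_PP φ w a)
    · rw [mul_assoc]
      exact MM_MM (adw_MM φ w a) (MM_mul_left (X_PP φ y) (adw_MM φ w a))

/-- index set of the leading words -/
abbrev Ix (k d : ℕ) : Type := Σ a : Fin d, (Fin (k - 1) ↪ Fin a)

theorem card_Ix (k d : ℕ) :
    Nat.card (Ix k d) = ∑ a ∈ Finset.range d, a.descFactorial (k - 1) := by
  rw [Nat.card_sigma]
  simp only [Nat.card_eq_fintype_card, Fintype.card_embedding_eq, Fintype.card_fin]
  rw [Fin.sum_univ_eq_sum_range (fun a => a.descFactorial (k - 1)) d]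

def tl {k d : ℕ} (i : Ix k d) : List ℕ := List.ofFn (fun j => ((i.2 j : Fin i.1) : ℕ))

def lst {k d : ℕ} (i : Ix k d) : List ℕ := (i.1 : ℕ) :: tl i

theorem tl_lt {k d : ℕ} (i : Ix k d) : ∀ y ∈ tl i, y < i.1 := by
  intro y hy
  unfold tl at hy
  rw [List.mem_ofFn] at hy
  obtain ⟨j, rfl⟩ := hy
  exact (i.2 j).2

theorem tl_nodup {k d : ℕ} (i : Ix k d) : (tl i).Nodup := by
  unfold tl
  rw [List.nodup_ofFn]
  intro a b h
  exact i.2.injective (Fin.ext h)

theorem lst_inj (k d : ℕ) : Function.Injective (lst : Ix k d → List ℕ) := by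
  rintro ⟨a, y⟩ ⟨a', y'⟩ h
  unfold lst tl at h
  have h1 : (a : ℕ) = a' := (List.cons.inj h).1
  have h2 : a = a' := Fin.ext h1
  subst h2
  have h3 := List.ofFn_injective (List.cons.inj h).2
  congr 1
  ext j
  exact congrFun h3 j

/-- the function on words given by `c` -/
noncomputable def ph {k d : ℕ} (c : Ix k d → (Fin t → ZMod p)) : List ℕ → Fin t → ZMod p :=
  Function.extend lst c 0

theorem ph_lst {k d : ℕ} (c : Ix k d → (Fin t → ZMod p)) (i : Ix k d) : ph c (lst i) = c i :=
  (lst_inj k d).extend_apply c 0 i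

theorem ph_zero {k d : ℕ} (c : Ix k d → (Fin t → ZMod p)) (y a : ℕ) (v : List ℕ) (ha : a ∈ v)
    (hy : y < a) : ph c (y :: v) = 0 := by
  unfold ph
  rw [Function.extend_apply']
  · rfl
  · rintro ⟨i, hi⟩
    unfold lst at hi
    obtain ⟨h1, h2⟩ := List.cons.inj hi
    rw [← h2] at ha
    have := tl_lt i a ha
    omega

/-- the top operator of the index `i` -/
noncomputable def TT {d : ℕ} (c : Ix k d → (Fin t → ZMod p)) (i : Ix k d) : RR p k t :=
  adw (ph c) (tl i).reverse (X (ph c) i.1)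

theorem tl_length {d : ℕ} (i : Ix k d) : (tl i).length = k - 1 := by
  unfold tl
  exact List.length_ofFn

theorem TT_mem (hk : 2 ≤ k) {d : ℕ} (c : Ix k d → (Fin t → ZMod p)) (i : Ix k d) :
    TT c i ∈ DD p k t k := by
  have := adw_DD (k := k) (ph c) (tl i).reverse i.1
  rw [List.length_reverse, tl_length, show k - 1 + 1 = k by omega] at this
  exact this

theorem crd_TT (hk : 2 ≤ k) (hk0 : 0 < k) {d : ℕ} (c : Ix k d → (Fin t → ZMod p)) (i : Ix k d) :
    crd hk0 (TT c i) = c i := by
  funext l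
  have h := adw_eval (k := k) (ph c) (ph_zero c) (Pi.single l 1) i.1 (tl i).reverse []
    (by rw [List.length_reverse, tl_length]; simp; omega) hk0
    (by
      rw [List.reverse_reverse, List.append_nil]
      refine List.nodup_cons.2 ⟨fun h => ?_, tl_nodup i⟩
      exact absurd (tl_lt i _ h) (lt_irrefl _))
    (by
      intro y hy
      exact tl_lt i y (List.mem_reverse.1 hy))
  rw [List.reverse_reverse, List.append_nil] at h
  unfold crd TT
  rw [h]
  have e : ((i.1 : ℕ) :: tl i) = lst i := rfl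
  rw [e, ph_lst]
  simp [Pi.single_apply]

theorem crd_add (hk : 0 < k) (S T : RR p k t) : crd hk (S + T) = crd hk S + crd hk T := rfl
theorem crd_smul (hk : 0 < k) (a : ZMod p) (T : RR p k t) : crd hk (a • T) = a • crd hk T := rfl

theorem crd_sum (hk : 0 < k) (T : Fin t → RR p k t) (x : Fin t → ZMod p) :
    crd hk (∑ l, x l • T l) = ∑ l, x l • crd hk (T l) := by
  let L : RR p k t →ₗ[ZMod p] (Fin t → ZMod p) :=
    { toFun := crd hk, map_add' := crd_add hk, map_smul' := crd_smul hk }
  show L (∑ l, x l • T l) = ∑ l, x l • L (T l)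
  simp

/-- the homomorphism from the top layer -/
def inW (hk : 2 ≤ k) (T : Fin t → RR p k t) (hT : ∀ l, T l ∈ DD p k t k) :
    Multiplicative (Fin t → ZMod p) →* (RR p k t)ˣ :=
  MonoidHom.mk' (fun x => ⟨1 + ∑ l, x.toAdd l • T l, 1 - ∑ l, x.toAdd l • T l, by
      rw [g1, DD_top (i := k + k) (by omega) (DD_mul
        (Submodule.sum_mem _ (fun l _ => Submodule.smul_mem _ _ (hT l)))
        (Submodule.sum_mem _ (fun l _ => Submodule.smul_mem _ _ (hT l)))), sub_zero], by
      rw [g2, DD_top (i := k + k) (by omega) (DD_mul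
        (Submodule.sum_mem _ (fun l _ => Submodule.smul_mem _ _ (hT l)))
        (Submodule.sum_mem _ (fun l _ => Submodule.smul_mem _ _ (hT l)))), sub_zero]⟩)
    (fun x y => by
      apply Units.ext
      show 1 + ∑ l, (x.toAdd l + y.toAdd l) • T l =
        (1 + ∑ l, x.toAdd l • T l) * (1 + ∑ l, y.toAdd l • T l)
      have h0 : (∑ l, x.toAdd l • T l) * (∑ l, y.toAdd l • T l) = 0 :=
        DD_top (i := k + k) (by omega) (DD_mul
        (Submodule.sum_mem _ (fun l _ => Submodule.smul_mem _ _ (hT l)))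
        (Submodule.sum_mem _ (fun l _ => Submodule.smul_mem _ _ (hT l))))
      rw [mul_add, add_mul, add_mul, h0]
      simp only [add_smul, Finset.sum_add_distrib, mul_one, one_mul, add_zero]
      abel)

theorem inW_val (hk : 2 ≤ k) (T : Fin t → RR p k t) (hT : ∀ l, T l ∈ DD p k t k)
    (x : Multiplicative (Fin t → ZMod p)) :
    ((inW hk T hT x : (RR p k t)ˣ) : RR p k t) = 1 + ∑ l, x.toAdd l • T l := rfl

/-- the parameter space -/
abbrev Par (p t : ℕ) (J : Type) (ι : Fin t ↪ J) : Type :=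
  {b : J → (Fin t → ZMod p) // ∀ l, b (ι l) = Pi.single l 1}

theorem card_Par [NeZero p] {J : Type} [Finite J] (ι : Fin t ↪ J) :
    Nat.card (Par p t J ι) = p ^ (t * (Nat.card J - t)) := by
  classical
  have : Fintype J := Fintype.ofFinite J
  have e : Par p t J ι ≃ ({P : J // ¬ ∃ l, ι l = P} → (Fin t → ZMod p)) :=
    { toFun := fun b P => b.1 P.1
      invFun := fun c => ⟨fun P => if h : ∃ l, ι l = P then Pi.single h.choose 1 else c ⟨P, h⟩, by
        intro l
        have h : ∃ l', ι l' = ι l := ⟨l, rfl⟩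
        show (if h : ∃ l', ι l' = ι l then (Pi.single h.choose 1 : Fin t → ZMod p)
          else c ⟨ι l, h⟩) = _
        rw [dif_pos h, ι.injective h.choose_spec]⟩
      left_inv := by
        rintro ⟨b, hb⟩
        apply Subtype.ext
        funext P
        by_cases h : ∃ l, ι l = P
        · show (if h : ∃ l, ι l = P then (Pi.single h.choose 1 : Fin t → ZMod p) else b P) = _
          rw [dif_pos h, ← hb, h.choose_spec]
        · show (if h : ∃ l, ι l = P then (Pi.single h.choose 1 : Fin t → ZMod p) else b P) = _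
          rw [dif_neg h]
      right_inv := by
        intro c
        funext P
        show (if h : ∃ l, ι l = P.1 then (Pi.single h.choose 1 : Fin t → ZMod p)
          else c ⟨P.1, h⟩) = _
        rw [dif_neg P.2] }
  have h1 : Nat.card {P : J // ¬ ∃ l, ι l = P} = Nat.card J - t := by
    rw [Nat.card_eq_fintype_card, Nat.card_eq_fintype_card, Fintype.card_subtype_compl]
    congr 1
    have : Fintype.card {P : J // ∃ l, ι l = P} = Fintype.card (Fin t) :=
      Fintype.card_congr (Equiv.ofInjective ι ι.injective).symm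
    rw [this, Fintype.card_fin]
  rw [Nat.card_congr e, Nat.card_fun, Nat.card_fun, h1]
  simp [← pow_mul]

theorem unip (hk : 2 ≤ k) (φ : List ℕ → Fin t → ZMod p) {a : ℕ} {h : (RR p k t)ˣ}
    (hh : h ∈ Hd φ k a) :
    (h : RR p k t) - 1 ∈ DD p k t 1 ∧ ((h⁻¹ : (RR p k t)ˣ) : RR p k t) - 1 ∈ DD p k t 1 := by
  unfold Hd at hh
  induction hh using Subgroup.closure_induction with
  | mem u hu =>
    rcases hu with ⟨j, hj, hu⟩ | hu
    · have e : u = uX φ k j := Units.ext hu
      rw [e, uX_val, uX_inv, add_sub_cancel_left]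
      refine ⟨X_mem φ j, ?_⟩
      rw [show (1 - X φ j - 1 : RR p k t) = - X φ j by abel]
      exact Submodule.neg_mem _ (X_mem φ j)
    · have hu' : (u : RR p k t) - 1 ∈ DD p k t k := hu
      refine ⟨DD_anti (by omega) hu', ?_⟩
      have e0 : ((u : RR p k t) - 1) * ((u : RR p k t) - 1) = 0 :=
        DD_top (i := k + k) (by omega) (DD_mul hu' hu')
      have e : ((u⁻¹ : (RR p k t)ˣ) : RR p k t) = 1 - ((u : RR p k t) - 1) := by
        apply Units.inv_eq_of_mul_eq_one_right
        have := g1 ((u : RR p k t) - 1)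
        rw [e0, sub_zero, add_sub_cancel] at this
        exact this
      rw [e, show (1 - ((u : RR p k t) - 1) - 1 : RR p k t) = - ((u : RR p k t) - 1) by abel]
      exact Submodule.neg_mem _ (DD_anti (by omega) hu')
  | one => simp
  | mul u v _ _ hu hv =>
    constructor
    · have e : ((u * v : (RR p k t)ˣ) : RR p k t) - 1 =
          ((u : RR p k t) - 1) * ((v : RR p k t) - 1) + ((u : RR p k t) - 1) +
            ((v : RR p k t) - 1) := by
        rw [Units.val_mul, sub_mul, mul_sub, one_mul, mul_one]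
        abel
      rw [e]
      exact Submodule.add_mem _ (Submodule.add_mem _ (DD_anti (by omega) (DD_mul hu.1 hv.1)) hu.1)
        hv.1
    · have e : (((u * v)⁻¹ : (RR p k t)ˣ) : RR p k t) - 1 =
          (((v⁻¹ : (RR p k t)ˣ) : RR p k t) - 1) * (((u⁻¹ : (RR p k t)ˣ) : RR p k t) - 1) +
            (((v⁻¹ : (RR p k t)ˣ) : RR p k t) - 1) + (((u⁻¹ : (RR p k t)ˣ) : RR p k t) - 1) := by
        rw [mul_inv_rev, Units.val_mul, sub_mul, mul_sub, one_mul, mul_one]
        abel
      rw [e]
      exact Submodule.add_mem _ (Submodule.add_mem _ (DD_anti (by omega) (DD_mul hv.2 hu.2)) hv.2)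
        hu.2
  | inv u _ hu =>
    rw [inv_inv]
    exact ⟨hu.2, hu.1⟩

theorem DD_pow {T : RR p k t} (hT : T ∈ DD p k t 1) (m : ℕ) : T ^ m ∈ DD p k t m := by
  induction m with
  | zero => intro i x hx; simpa using hx
  | succ m ih => rw [pow_succ]; exact DD_mul ih hT

theorem isPGroup_Hd [hp : Fact p.Prime] (hk : 2 ≤ k) (φ : List ℕ → Fin t → ZMod p) (a : ℕ) :
    IsPGroup p (Hd φ k a) := by
  haveI : Nonempty (Wd k) := ⟨⟨[], by simp; omega⟩⟩
  haveI : CharP (RR p k t) p :=
    charP_of_injective_algebraMap (algebraMap (ZMod p) (RR p k t)).injective p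
  rintro ⟨h, hh⟩
  refine ⟨k + 1, ?_⟩
  apply Subtype.ext
  apply Units.ext
  show ((h ^ (p ^ (k + 1)) : (RR p k t)ˣ) : RR p k t) = 1
  rw [Units.val_pow_eq_pow_val]
  have e : (h : RR p k t) = 1 + ((h : RR p k t) - 1) := by abel
  rw [e, add_pow_char_pow_of_commute p (k + 1) (Commute.one_left _), one_pow,
    DD_top (i := p ^ (k + 1)) (Nat.lt_pow_self hp.out.one_lt).le (DD_pow (unip hk φ hh).1 _), add_zero]

theorem embeds [hp : Fact p.Prime] (hk : 2 ≤ k) {n d : ℕ}
    (hn : t + ∑ e ∈ Finset.range d, ∑ i ∈ Finset.range (k - 1), e ^ i ≤ n)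
    {G : Type} [Group G]
    (h : ∀ (H : Type) [Group H], Nat.card H = p ^ n → ∃ f : H →* G, Function.Injective f)
    (φ : List ℕ → Fin t → ZMod p) : ∃ f : Hd φ k d →* G, Function.Injective f := by
  haveI : NeZero p := ⟨hp.out.ne_zero⟩
  obtain ⟨hfin, hcard⟩ := card_Hd (k := k) (t := t) hk φ d
  obtain ⟨m, hm⟩ := (IsPGroup.iff_card).1 (isPGroup_Hd hk φ d)
  have hmn : m ≤ n := by
    rw [hm] at hcard
    exact ((Nat.pow_le_pow_iff_right hp.out.one_lt).1 hcard).trans hn
  obtain ⟨f, hf⟩ := h (Hd φ k d × Multiplicative (Fin (n - m) → ZMod p)) (by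
    rw [Nat.card_prod, hm]
    have : Nat.card (Multiplicative (Fin (n - m) → ZMod p)) = p ^ (n - m) := by
      show Nat.card (Fin (n - m) → ZMod p) = _
      simp
    rw [this, ← pow_add]
    congr 1
    omega)
  refine ⟨f.comp (MonoidHom.inl _ _), hf.comp ?_⟩
  intro x y hxy
  exact congrArg Prod.fst hxy

/-- marked generators -/
noncomputable def gH (φ : List ℕ → Fin t → ZMod p) (k d : ℕ) (j : ℕ) : Hd φ k d :=
  if h : j < d then ⟨uX φ k j, Subgroup.subset_closure (Or.inl ⟨j, h, rfl⟩)⟩ else 1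

theorem cw_gH (φ : List ℕ → Fin t → ZMod p) (d a : ℕ) (w : List ℕ) (ha : a < d)
    (hw : ∀ y ∈ w, y < d) : ((cw (gH φ k d) a w : Hd φ k d) : (RR p k t)ˣ) = cw (uX φ k) a w := by
  have h := cw_map (Hd φ k d).subtype (gH φ k d) a w
  rw [Subgroup.subtype_apply] at h
  rw [h]
  apply cw_congr
  · unfold gH; rw [dif_pos ha]; rfl
  · intro y hy
    unfold gH; rw [dif_pos (hw y hy)]; rfl

/-- the counting inequality -/
theorem count [hp : Fact p.Prime] (hk : 2 ≤ k) {n d : ℕ}
    (hn : t + ∑ e ∈ Finset.range d, ∑ i ∈ Finset.range (k - 1), e ^ i ≤ n)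
    (ht : t ≤ Nat.card (Ix k d)) {G : Type} [Group G] [Finite G]
    (h : ∀ (H : Type) [Group H], Nat.card H = p ^ n → ∃ f : H →* G, Function.Injective f) :
    p ^ (t * (Nat.card (Ix k d) - t)) ≤ Nat.card G ^ d := by
  classical
  haveI : NeZero p := ⟨hp.out.ne_zero⟩
  obtain ⟨ι⟩ : Nonempty (Fin t ↪ Ix k d) := by
    rw [Function.Embedding.nonempty_iff_card_le, Fintype.card_fin, ← Nat.card_eq_fintype_card]
    exact ht
  rw [← card_Par (p := p) ι]
  have h2 : ∀ b : Par p t (Ix k d) ι, ∃ f : Hd (ph b.1) k d →* G, Function.Injective f := fun b =>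
    embeds hk hn h (ph b.1)
  choose f hf using h2
  have hk0 : 0 < k := by omega
  have hTT : ∀ (b : Par p t (Ix k d) ι) (i : Ix k d),
      TT b.1 i = ∑ l, b.1 i l • TT b.1 (ι l) := by
    intro b i
    rw [← sub_eq_zero]
    apply crd_zero hk0
    · exact Submodule.sub_mem _ (TT_mem hk _ _)
        (Submodule.sum_mem _ (fun l _ => Submodule.smul_mem _ _ (TT_mem hk _ _)))
    · have e : crd hk0 (TT b.1 i - ∑ l, b.1 i l • TT b.1 (ι l)) =
          crd hk0 (TT b.1 i) - crd hk0 (∑ l, b.1 i l • TT b.1 (ι l)) := rfl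
      rw [e, crd_sum, crd_TT hk]
      have e2 : ∀ l, crd hk0 (TT b.1 (ι l)) = Pi.single l 1 := fun l => by
        rw [crd_TT hk, b.2 l]
      simp only [e2]
      rw [sub_eq_zero]
      funext j
      simp [Finset.sum_apply, Pi.single_apply]
  let W : ∀ b : Par p t (Ix k d) ι, Multiplicative (Fin t → ZMod p) →* Hd (ph b.1) k d := fun b =>
    (inW hk (fun l => TT b.1 (ι l)) (fun l => TT_mem hk _ _)).codRestrict (Hd (ph b.1) k d)
      (fun x => Subgroup.subset_closure (Or.inr (by
        show ((inW hk (fun l => TT b.1 (ι l)) (fun l => TT_mem hk _ _) x : (RR p k t)ˣ) : RR p k t)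
          - 1 ∈ DD p k t k
        rw [inW_val, add_sub_cancel_left]
        exact Submodule.sum_mem _ (fun l _ => Submodule.smul_mem _ _ (TT_mem hk _ _)))))
  have hW : ∀ (b : Par p t (Ix k d) ι) (i : Ix k d),
      W b (Multiplicative.ofAdd (b.1 i)) = cw (gH (ph b.1) k d) i.1 (tl i).reverse := by
    intro b i
    apply Subtype.ext
    rw [cw_gH _ _ _ _ i.1.2 (fun y hy => (tl_lt i y (List.mem_reverse.1 hy)).trans i.1.2)]
    apply Units.ext
    rw [cw_val]
    show 1 + ∑ l, b.1 i l • TT b.1 (ι l) = 1 + TT b.1 i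
    rw [← hTT]
  have h3 : Function.Injective (fun b : Par p t (Ix k d) ι =>
      (fun i : Fin d => f b (gH (ph b.1) k d i))) := by
    intro b b' hbb
    have h4 : ∀ j : ℕ, f b (gH (ph b.1) k d j) = f b' (gH (ph b'.1) k d j) := by
      intro j
      by_cases hj : j < d
      · exact congrFun hbb ⟨j, hj⟩
      · unfold gH
        rw [dif_neg hj, dif_neg hj, map_one, map_one]
    have h5 : ∀ i : Ix k d, f b (W b (Multiplicative.ofAdd (b.1 i))) =
        f b' (W b' (Multiplicative.ofAdd (b'.1 i))) := by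
      intro i
      rw [hW, hW, cw_map, cw_map]
      simp only [h4]
    have h6 : (f b).comp (W b) = (f b').comp (W b') := by
      apply Pool.Agent.H596R3.CovLow.hom_W
      intro l
      have := h5 (ι l)
      rw [b.2 l, b'.2 l] at this
      exact this
    apply Subtype.ext
    funext i
    have h7 := h5 i
    have h8 : f b' (W b' (Multiplicative.ofAdd (b'.1 i))) =
        f b (W b (Multiplicative.ofAdd (b'.1 i))) :=
      (DFunLike.congr_fun h6 (Multiplicative.ofAdd (b'.1 i))).symm
    rw [h8] at h7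
    have h9 := hf b h7
    have h10 : (1 + ∑ l, b.1 i l • TT b.1 (ι l) : RR p k t) =
        1 + ∑ l, b'.1 i l • TT b.1 (ι l) := congrArg (fun z => ((z.1 : (RR p k t)ˣ) : RR p k t)) h9
    have h11 := congrArg (crd hk0) (add_left_cancel h10)
    rw [crd_sum, crd_sum] at h11
    have e2 : ∀ l, crd hk0 (TT b.1 (ι l)) = Pi.single l 1 := fun l => by
      rw [crd_TT hk, b.2 l]
    simp only [e2] at h11
    funext j
    have h12 := congrFun h11 j
    simpa [Finset.sum_apply, Pi.single_apply] using h12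
  have h10 := Nat.card_le_card_of_injective _ h3
  rw [Nat.card_fun] at h10
  simpa using h10

end Pool.Agent.H596L
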